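import Pool.Agent.Helper54.T5.SplitDefs
import Pool.Agent.Helper54.T5.Cand
import Pool.Agent.Helper53.T5.J4
import Pool.Agent.Helper18.T5.J1

/-!
# T5b, across the split: J3S and J4S

`candQ_count`: the number of candidates across the split.
`splitTuple`: freshness across the split.
-/

namespace Pool.Agent.Helper12.T5

open Finset Pool.Agent.Helper27.T4 Pool.Agent.Helper29.T4 Pool.Agent.Helper22.HW
  Pool.Agent.Helper22.SL Pool.Agent.Helper3.T5 Pool.Agent.Helper54.T5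

variable {ι κ γ : Type*} [Fintype ι] [DecidableEq ι] {M : MP ι κ} {Mk : κ → ℕ}

theorem modEq_cls (hM : M.Ok Mk) (e : ι → ℕ) (u v : ℕ) (h : ∀ i, i ≠ M.R →
    ((u : ℕ) : ZMod (M.p i ^ e i)) = ((v : ℕ) : ZMod (M.p i ^ e i))) :
    u ≡ v [MOD NN M.p (fx e {M.R})] := by
  rw [← ZMod.natCast_eq_natCast_iff, natCast_eq_iff hM.prime hM.inj]
  intro i
  by_cases hi : i = M.R
  · have h0 : fx e {M.R} i = 0 := by simp [fx, hi]
    rw [ZMod.natCast_eq_natCast_iff, h0, pow_zero]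
    exact Nat.modEq_one
  · have h0 : fx e {M.R} i = e i := by simp [fx, hi]
    rw [h0]
    exact h i hi

/-- a candidate gives a pair of vectors of J1 and an element of `Y` -/
theorem candQ_mem (hM : M.Ok Mk) {Q : ℕ} {Y : Finset γ} {g : γ → ℕ} (w : κ → ℕ) (T : ℕ)
    {d : (((ι → ℕ) × (ι → ℕ)) × γ) × (ℕ × ℕ)} (hd : d ∈ candQ M Q Y g w T) :
    d.1.1 ∈ M.prs hM w (bR M) T ∧ d.1.2 ∈ Y := by
  classical
  unfold candQ at hd
  rw [mem_filter, mem_product, mem_product, mem_product] at hd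
  obtain ⟨⟨⟨⟨hx, hx'⟩, hy⟩, -⟩, hT, hu, hu', -⟩ := hd
  refine ⟨?_, hy⟩
  unfold MP.prs
  rw [mem_filter, mem_product]
  refine ⟨⟨hx, hx'⟩, fun i => ?_⟩
  by_cases hi : i = M.R
  · have h0 : bR M i = 0 := by simp [bR, fx, hi]
    rw [h0, pow_zero]
    exact Nat.modEq_one
  · have h0 : bR M i = M.e' i := by simp [bR, fx, hi]
    rw [h0]
    have h1 : M.cd hM w d.1.1.1 ≡ d.2.1 [MOD M.p i ^ M.e i] := by
      rw [← ZMod.natCast_eq_natCast_iff, hu i hi]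
      exact cv_cast_comp hM.prime hM.inj M.e _ i
    have h2 : M.cd' hM w d.1.1.2 ≡ d.2.2 [MOD M.p i ^ M.e' i] := by
      rw [← ZMod.natCast_eq_natCast_iff, hu' i hi]
      exact cv_cast_comp hM.prime hM.inj M.e' _ i
    have h3 := (h1.of_dvd (pow_dvd_pow (M.p i) (hM.ee i))).add h2
    rwa [hT] at h3

/-- the two codes of a candidate, for given vectors and given element of `Y` -/
theorem candQ_fiber (hM : M.Ok Mk) {Q : ℕ} (hQ : ∀ i, Q.Coprime (M.p i)) (hQ0 : 0 < Q)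
    (Y : Finset γ) (g : γ → ℕ) (w : κ → ℕ) (T : ℕ) (z : ((ι → ℕ) × (ι → ℕ)) × γ)
    [DecidablePred fun d : (((ι → ℕ) × (ι → ℕ)) × γ) × (ℕ × ℕ) => d.1 = z] :
    ((candQ M Q Y g w T).filter (fun d => d.1 = z)).card ≤
      min M.Ne (M.Ne' * Q) / (NN M.p (fx M.e {M.R}) * Q) + 1 := by
  classical
  have hdvd : NN M.p (fx M.e' {M.R}) ∣ NN M.p (fx M.e {M.R}) := by
    apply NN_dvd
    intro i
    unfold fx
    split_ifs
    · exact le_rfl
    · exact hM.ee i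
  have hpos : 0 < NN M.p (fx M.e {M.R}) := NN_pos hM.prime _
  have hpos' : 0 < NN M.p (fx M.e' {M.R}) := NN_pos hM.prime _
  have hcop : ∀ e : ι → ℕ, (NN M.p (fx e {M.R})).Coprime Q := by
    intro e
    rw [NN]
    exact Nat.Coprime.prod_left (fun i _ => Nat.Coprime.pow_left _ (hQ i).symm)
  have hlcm : NN M.p (fx M.e {M.R}) * Q ≤
      Nat.lcm (NN M.p (fx M.e {M.R})) (NN M.p (fx M.e' {M.R}) * Q) := by
    apply Nat.le_of_dvd (Nat.lcm_pos hpos (Nat.mul_pos hpos' hQ0))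
    exact (hcop M.e).mul_dvd_of_dvd_of_dvd (Nat.dvd_lcm_left _ _)
      ((dvd_mul_left _ _).trans (Nat.dvd_lcm_right _ _))
  have h1 : ((candQ M Q Y g w T).filter (fun d => d.1 = z)).card =
      (((candQ M Q Y g w T).filter (fun d => d.1 = z)).image (fun d => d.2)).card := by
    rw [Finset.card_image_of_injOn]
    intro d hd d' hd' h
    rw [mem_coe, mem_filter] at hd hd'
    exact Prod.ext (hd.2.trans hd'.2.symm) h
  rw [h1]
  have h2 := pair_sum_card (A := M.Ne) (A' := M.Ne' * Q) (B := NN M.p (fx M.e {M.R}))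
    (B' := NN M.p (fx M.e' {M.R}) * Q) (T := T) hpos (Nat.mul_pos hpos' hQ0)
    (((candQ M Q Y g w T).filter (fun d => d.1 = z)).image (fun d => d.2))
    (by
      intro t ht
      rw [mem_image] at ht
      obtain ⟨d, hd, rfl⟩ := ht
      rw [mem_filter] at hd
      have hd1 := hd.1
      unfold candQ at hd1
      rw [mem_filter] at hd1
      simp only [mem_product, mem_range] at hd1
      exact ⟨hd1.1.2.1, hd1.1.2.2, hd1.2.1⟩)
    (by
      intro t ht s hs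
      rw [mem_image] at ht hs
      obtain ⟨d, hd, rfl⟩ := ht
      obtain ⟨d', hd', rfl⟩ := hs
      rw [mem_filter] at hd hd'
      have hd1 := hd.1
      have hd1' := hd'.1
      unfold candQ at hd1 hd1'
      rw [mem_filter] at hd1 hd1'
      obtain ⟨-, -, a1, a2, a3⟩ := hd1
      obtain ⟨-, -, b1, b2, b3⟩ := hd1'
      refine ⟨modEq_cls hM M.e _ _ (fun i hi => ?_), ?_⟩
      · rw [a1 i hi, b1 i hi, hd.2, hd'.2]
      · refine (Nat.modEq_and_modEq_iff_modEq_mul (hcop M.e')).1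
          ⟨modEq_cls hM M.e' _ _ (fun i hi => ?_), ?_⟩
        · rw [a2 i hi, b2 i hi, hd.2, hd'.2]
        · refine a3.trans (Nat.ModEq.trans ?_ b3.symm)
          rw [hd.2, hd'.2])
  exact h2.trans (Nat.add_le_add_right (Nat.div_le_div_left hlcm
    (Nat.mul_pos hpos hQ0)) 1)

/-- **J3S** -/
theorem candQ_count (hM : M.Ok Mk) {Q : ℕ} (hQ : ∀ i, Q.Coprime (M.p i)) (hQ0 : 0 < Q)
    (Y : Finset γ) (g : γ → ℕ) (w : κ → ℕ) (T : ℕ) :
    ((candQ M Q Y g w T).card : ℝ) ≤ Y.card * (M.C * M.Lam * (M.q : ℝ) ^ 2 *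
      (min (1 / (Q : ℝ)) ((M.Ne' : ℝ) / M.Ne) + 1 / M.q)) := by
  classical
  set B := NN M.p (fx M.e {M.R}) with hB
  have h1 : (candQ M Q Y g w T).card ≤
      (min M.Ne (M.Ne' * Q) / (B * Q) + 1) * ((M.prs hM w (bR M) T) ×ˢ Y).card :=
    Finset.card_le_mul_card_image_of_maps_to (f := fun d => d.1)
      (fun d hd => mem_product.2 (candQ_mem hM w T hd)) _
      (fun z _ => candQ_fiber hM hQ hQ0 Y g w T z)
  have h2 : (M.prs hM w (bR M) T).card ≤ M.C * (M.Lam * M.q) :=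
    (Pool.Agent.Helper18.T5.base_count hM w _ (bR_le M) T).trans
      (Nat.mul_le_mul_left _ (prod_bR_le hM))
  have h3 : B * M.q = M.Ne := by
    have := NN_fx_mul (p := M.p) M.e {M.R}
    simpa [MM, MP.q, MP.Ne] using this
  have hq : (0 : ℝ) < M.q := by
    exact_mod_cast (pow_pos (hM.prime _).pos _ : 0 < M.p M.R ^ M.e M.R)
  have hBr : (0 : ℝ) < B := by exact_mod_cast NN_pos hM.prime _
  have hQr : (0 : ℝ) < Q := by exact_mod_cast hQ0
  have h3' : (B : ℝ) * M.q = M.Ne := by exact_mod_cast h3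
  have hNe : (0 : ℝ) < M.Ne := by rw [← h3']; positivity
  have h4 : ((min M.Ne (M.Ne' * Q) / (B * Q) + 1 : ℕ) : ℝ) ≤
      M.q * (min (1 / (Q : ℝ)) ((M.Ne' : ℝ) / M.Ne) + 1 / M.q) := by
    have h5 : ((min M.Ne (M.Ne' * Q) / (B * Q) : ℕ) : ℝ) ≤
        ((min M.Ne (M.Ne' * Q) : ℕ) : ℝ) / ((B * Q : ℕ) : ℝ) := Nat.cast_div_le
    have h6 : ((min M.Ne (M.Ne' * Q) : ℕ) : ℝ) / ((B * Q : ℕ) : ℝ) ≤
        M.q * min (1 / (Q : ℝ)) ((M.Ne' : ℝ) / M.Ne) := by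
      rw [mul_min_of_nonneg _ _ hq.le]
      apply le_min
      · have h7 : ((min M.Ne (M.Ne' * Q) : ℕ) : ℝ) ≤ M.Ne := by
          exact_mod_cast min_le_left _ _
        have h8 : (M.q : ℝ) * (1 / Q) = M.Ne / ((B * Q : ℕ) : ℝ) := by
          rw [← h3']
          push_cast
          field_simp
        rw [h8]
        exact div_le_div_of_nonneg_right h7 (by positivity)
      · have h7 : ((min M.Ne (M.Ne' * Q) : ℕ) : ℝ) ≤ M.Ne' * Q := by
          exact_mod_cast min_le_right _ _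
        have h8 : (M.q : ℝ) * ((M.Ne' : ℝ) / M.Ne) = (M.Ne' * Q) / ((B * Q : ℕ) : ℝ) := by
          rw [← h3']
          push_cast
          field_simp
        rw [h8]
        exact div_le_div_of_nonneg_right h7 (by positivity)
    have h9 : (M.q : ℝ) * (1 / M.q) = 1 := by field_simp
    push_cast
    push_cast at h5 h6
    rw [mul_add, h9]
    linarith
  have hmin : (0 : ℝ) ≤ min (1 / (Q : ℝ)) ((M.Ne' : ℝ) / M.Ne) := by positivity
  rw [card_product] at h1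
  calc ((candQ M Q Y g w T).card : ℝ)
      ≤ (((min M.Ne (M.Ne' * Q) / (B * Q) + 1) *
        ((M.prs hM w (bR M) T).card * Y.card) : ℕ) : ℝ) := by exact_mod_cast h1
    _ = ((min M.Ne (M.Ne' * Q) / (B * Q) + 1 : ℕ) : ℝ) *
        (((M.prs hM w (bR M) T).card : ℝ) * Y.card) := by
        push_cast; ring
    _ ≤ (M.q * (min (1 / (Q : ℝ)) ((M.Ne' : ℝ) / M.Ne) + 1 / M.q)) *
        (((M.C * (M.Lam * M.q) : ℕ) : ℝ) * Y.card) := by
        apply mul_le_mul h4 (mul_le_mul_of_nonneg_right (by exact_mod_cast h2)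
          (Nat.cast_nonneg _)) (by positivity) (by positivity)
    _ = Y.card * (M.C * M.Lam * (M.q : ℝ) ^ 2 *
      (min (1 / (Q : ℝ)) ((M.Ne' : ℝ) / M.Ne) + 1 / M.q)) := by
        push_cast; ring

/-! ## J4S -/

theorem cdQ_cast (hM : M.Ok Mk) {Q : ℕ} (hQ : ∀ i, Q.Coprime (M.p i)) (g : γ → ℕ) (w : κ → ℕ)
    (x : ι → ℕ) (y : γ) (i : ι) :
    ((cdQ M hM Q g w x y : ℕ) : ZMod (M.p i ^ M.e' i)) =
      Lg (M.p i) (M.e' i) (x i) + M.ρ' w i x := by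
  have hco : M.Ne'.Coprime Q := by
    unfold MP.Ne'
    rw [NN]
    exact Nat.Coprime.prod_left (fun i _ => Nat.Coprime.pow_left _ (hQ i).symm)
  have h1 : cdQ M hM Q g w x y ≡ M.cd' hM w x [MOD M.Ne'] := crt_left hco _ _
  have hd : M.p i ^ M.e' i ∣ M.Ne' := by
    unfold MP.Ne'
    rw [NN]
    exact Finset.dvd_prod_of_mem _ (mem_univ i)
  have h2 := (ZMod.natCast_eq_natCast_iff _ _ _).2 (h1.of_dvd hd)
  rw [h2]
  exact cv_cast_comp hM.prime hM.inj M.e' (fun i => Lg (M.p i) (M.e' i) (x i) + M.ρ' w i x) i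

/-- the value of a fresh key, lower state -/
theorem key_valQ (hM : M.Ok Mk) {Q : ℕ} (hQ : ∀ i, Q.Coprime (M.p i)) (g : γ → ℕ) (w : κ → ℕ)
    {x : ι → ℕ} (hx : x ∈ M.X') (y : γ)
    (hw : w (M.key' M.R x) < Mk (M.key' M.R x)) :
    w (M.key' M.R x) = (((cdQ M hM Q g w x y : ℕ) : ZMod (M.p M.R ^ M.e' M.R)) -
      Lg (M.p M.R) (M.e' M.R) (x M.R)).val := by
  have he : M.e' M.R = M.e M.R := by
    have h1 := hM.ce' M.R
    have h3 := hM.ee M.R
    have h4 := hM.statR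
    omega
  rw [cdQ_cast hM hQ g w x y M.R, add_sub_cancel_left, MP.ρ']
  rw [hM.size' x hx, MP.q, ← he] at hw
  exact (ZMod.val_natCast_of_lt hw).symm

/-- a hit gives a candidate -/
theorem mem_candQ (hM : M.Ok Mk) {Q : ℕ} (hQ : ∀ i, Q.Coprime (M.p i)) (hQ0 : 0 < Q)
    {Y : Finset γ} (g : γ → ℕ) (w w0 : κ → ℕ)
    (hw : ∀ x ∈ M.X, ∀ i, i ≠ M.R → w (M.key i x) = w0 (M.key i x))
    (hw' : ∀ x ∈ M.X', ∀ i, i ≠ M.R → w (M.key' i x) = w0 (M.key' i x))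
    {x x' : ι → ℕ} {y : γ} (hx : x ∈ M.X) (hx' : x' ∈ M.X') (hy : y ∈ Y) {T : ℕ}
    (hT : M.cd hM w x + cdQ M hM Q g w x' y = T) :
    (((x, x'), y), (M.cd hM w x, cdQ M hM Q g w x' y)) ∈ candQ M Q Y g w0 T := by
  classical
  have hco : M.Ne'.Coprime Q := by
    unfold MP.Ne'
    rw [NN]
    exact Nat.Coprime.prod_left (fun i _ => Nat.Coprime.pow_left _ (hQ i).symm)
  have hNe' : 0 < M.Ne' := NN_pos hM.prime _
  unfold candQ
  rw [mem_filter]
  simp only [mem_product, mem_range]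
  refine ⟨⟨⟨⟨hx, hx'⟩, hy⟩, cv_lt hM.prime hM.inj M.e _, crt_lt hco hNe' hQ0 _ _⟩, hT, ?_, ?_,
    crt_right hco _ _⟩
  · intro i hi
    have h2 : ((M.cd hM w x : ℕ) : ZMod (M.p i ^ M.e i)) =
      Lg (M.p i) (M.e i) (x i) + M.ρ w i x :=
      cv_cast_comp hM.prime hM.inj M.e (fun i => Lg (M.p i) (M.e i) (x i) + M.ρ w i x) i
    rw [h2, MP.ρ, MP.ρ, hw x hx i hi]
  · intro i hi
    rw [cdQ_cast hM hQ g w x' y i, MP.ρ', MP.ρ', hw' x' hx' i hi]

/-- J4S: **freshness across the split** -/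
theorem splitTuple [DecidableEq κ] (hM : M.Ok Mk) (hMk : ∀ k, 0 < Mk k) {K : Finset κ}
    (hK : ∀ x ∈ M.X, ∀ i, M.key i x ∈ K) (hK' : ∀ x ∈ M.X', ∀ i, M.key' i x ∈ K)
    {Q : ℕ} (hQ : ∀ i, Q.Coprime (M.p i)) (hQ0 : 0 < Q) (Y : Finset γ) (g : γ → ℕ)
    {β : Type*} (E : Finset β) (τ : β → ℕ) {ρ : ℝ} (hρ : 0 ≤ ρ)
    (h : (E.card : ℝ) * (Y.card * (M.C * M.Lam *
      (min (1 / (Q : ℝ)) ((M.Ne' : ℝ) / M.Ne) + 1 / M.q))) ≤ ρ) (m : ℕ) :
    PrG Mk K (fun w => ∃ T : Finset (((ι → ℕ) × (ι → ℕ)) × (γ × β)), T.card = m + 1 ∧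
      (∀ t ∈ T, t.1.1 ∈ M.X ∧ t.1.2 ∈ M.X' ∧ t.2.1 ∈ Y ∧ t.2.2 ∈ E ∧
        M.cd hM w t.1.1 + cdQ M hM Q g w t.1.2 t.2.1 = τ t.2.2) ∧ M.Free T)
      ((M.q : ℝ) ^ 2 * ρ ^ (m + 1)) := by
  classical
  have hq0 : 0 < M.q := pow_pos (hM.prime M.R).pos _
  have hq : (0 : ℝ) < (M.q : ℝ) ^ 2 := by positivity
  set K1 : Finset κ := M.X.image (M.key M.R) ∪ M.X'.image (M.key' M.R) with hK1
  have hK1K : K1 ⊆ K := by
    intro k hk
    rw [hK1, mem_union, mem_image, mem_image] at hk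
    rcases hk with ⟨x, hx, rfl⟩ | ⟨x, hx, rfl⟩
    · exact hK x hx _
    · exact hK' x hx _
  have hkR : ∀ x ∈ M.X, M.key M.R x ∈ K1 := fun x hx =>
    mem_union_left _ (mem_image_of_mem _ hx)
  have hkR' : ∀ x ∈ M.X', M.key' M.R x ∈ K1 := fun x hx =>
    mem_union_right _ (mem_image_of_mem _ hx)
  have hnot : ∀ x, ∀ i, i ≠ M.R → M.key i x ∉ K1 := by
    intro x i hi hk
    rw [hK1, mem_union, mem_image, mem_image] at hk
    rcases hk with ⟨y, _, hy⟩ | ⟨y, _, hy⟩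
    · exact (hM.new i x y hi).1 hy.symm
    · exact hM.mix i x M.R y hy.symm
  have hnot' : ∀ x, ∀ i, i ≠ M.R → M.key' i x ∉ K1 := by
    intro x i hi hk
    rw [hK1, mem_union, mem_image, mem_image] at hk
    rcases hk with ⟨y, _, hy⟩ | ⟨y, _, hy⟩
    · exact hM.mix M.R y i x hy
    · exact (hM.new i x y hi).2 hy.symm
  have hKK : K \ (K \ K1) = K1 := by
    ext k
    rw [mem_sdiff, mem_sdiff]
    constructor
    · intro hk
      by_contra hn
      exact hk.2 ⟨hk.1, hn⟩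
    · intro hk
      exact ⟨hK1K hk, fun h => h.2 hk⟩
  refine PrG_cond (K0 := K \ K1) Finset.sdiff_subset (by positivity) ?_
  intro r0 _
  rw [hKK]
  set w0 : κ → ℕ := ext (K \ K1) r0 with hw0
  -- the values of the glued assignment
  have hg1 : ∀ w : κ → ℕ, ∀ k ∈ K1, glue (K \ K1) w0 w k = w k := fun w k hk =>
    glue_not_mem _ _ _ (fun hk' => (mem_sdiff.1 hk').2 hk)
  have hg0 : ∀ w : κ → ℕ, ∀ x ∈ M.X, ∀ i, i ≠ M.R →
      glue (K \ K1) w0 w (M.key i x) = w0 (M.key i x) := fun w x hx i hi =>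
    glue_mem _ _ _ (mem_sdiff.2 ⟨hK x hx i, hnot x i hi⟩)
  have hg0' : ∀ w : κ → ℕ, ∀ x ∈ M.X', ∀ i, i ≠ M.R →
      glue (K \ K1) w0 w (M.key' i x) = w0 (M.key' i x) := fun w x hx i hi =>
    glue_mem _ _ _ (mem_sdiff.2 ⟨hK' x hx i, hnot' x i hi⟩)
  -- the candidates
  set Cand : Finset (Σ _ : β, (((ι → ℕ) × (ι → ℕ)) × γ) × (ℕ × ℕ)) :=
    E.sigma (fun t => candQ M Q Y g w0 (τ t)) with hCand
  have hX : ∀ z ∈ Cand, z.2.1.1.1 ∈ M.X ∧ z.2.1.1.2 ∈ M.X' := by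
    intro z hz
    rw [hCand, mem_sigma] at hz
    have h1 := hz.2
    unfold candQ at h1
    rw [mem_filter] at h1
    simp only [mem_product] at h1
    exact h1.1.1.1
  set fk : (Σ _ : β, (((ι → ℕ) × (ι → ℕ)) × γ) × (ℕ × ℕ)) → Finset K1 := fun z =>
    Finset.univ.filter (fun k : K1 => (k : κ) = M.key M.R z.2.1.1.1 ∨
      (k : κ) = M.key' M.R z.2.1.1.2) with hfk
  set vl : (Σ _ : β, (((ι → ℕ) × (ι → ℕ)) × γ) × (ℕ × ℕ)) → K1 → ℕ := fun z k =>
    if (k : κ) = M.key M.R z.2.1.1.1 then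
      (((z.2.2.1 : ℕ) : ZMod (M.p M.R ^ M.e M.R)) -
        Lg (M.p M.R) (M.e M.R) (z.2.1.1.1 M.R)).val
    else
      (((z.2.2.2 : ℕ) : ZMod (M.p M.R ^ M.e' M.R)) -
        Lg (M.p M.R) (M.e' M.R) (z.2.1.1.2 M.R)).val with hvl
  have hCard : (Cand.card : ℝ) ≤ (M.q : ℝ) ^ 2 * ρ := by
    have h1 : (Cand.card : ℝ) = ∑ t ∈ E, ((candQ M Q Y g w0 (τ t)).card : ℝ) := by
      rw [hCand, card_sigma]
      push_cast
      rfl
    rw [h1]
    refine (Finset.sum_le_sum (fun t _ => candQ_count hM hQ hQ0 Y g w0 (τ t))).trans ?_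
    rw [Finset.sum_const, nsmul_eq_mul]
    have h2 := mul_le_mul_of_nonneg_left h hq.le
    refine le_trans (le_of_eq ?_) h2
    ring
  rw [PrG_iff, mul_comm]
  refine le_trans (tuple_bound_set (fun k : K1 => Mk k) (fun k => hMk k) Cand
    (fun z ω => M.cd hM (glue (K \ K1) w0 (ext K1 ω)) z.2.1.1.1 = z.2.2.1 ∧
      cdQ M hM Q g (glue (K \ K1) w0 (ext K1 ω)) z.2.1.1.2 z.2.1.2 = z.2.2.2)
      fk vl ?_ ρ ?_ m _ ?_) ?_
  · -- the values are forced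
    intro z hz ω hω hhit k hk
    have hωk : ω k < Mk k := by
      rw [Om, Fintype.mem_piFinset] at hω
      exact mem_range.1 (hω k)
    have hcomb : glue (K \ K1) w0 (ext K1 ω) (k : κ) = ω k := by
      rw [hg1 _ _ k.2, ext_mem ω k.2]
    rw [hfk] at hk
    simp only [mem_filter, mem_univ, true_and] at hk
    by_cases hk1 : (k : κ) = M.key M.R z.2.1.1.1
    · simp only [hvl, if_pos hk1]
      have h3 := Pool.Agent.Helper53.T5.key_val hM (glue (K \ K1) w0 (ext K1 ω)) (hX z hz).1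
        (by rw [← hk1, hcomb]; exact hωk)
      rw [← hk1, hcomb, hhit.1] at h3
      exact h3
    · have hk2 : (k : κ) = M.key' M.R z.2.1.1.2 := hk.resolve_left hk1
      simp only [hvl, if_neg hk1]
      have h3 := key_valQ hM hQ g (glue (K \ K1) w0 (ext K1 ω)) (hX z hz).2 z.2.1.2
        (by rw [← hk2, hcomb]; exact hωk)
      rw [← hk2, hcomb, hhit.2] at h3
      exact h3
  · -- the weights
    have hw : ∀ z ∈ Cand, ∏ k ∈ fk z, ((Mk (k : κ) : ℝ))⁻¹ = ((M.q : ℝ) ^ 2)⁻¹ := by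
      intro z hz
      have h1 : fk z = {(⟨M.key M.R z.2.1.1.1, hkR _ (hX z hz).1⟩ : K1),
          (⟨M.key' M.R z.2.1.1.2, hkR' _ (hX z hz).2⟩ : K1)} := by
        ext k
        rw [hfk]
        simp only [mem_filter, mem_univ, true_and, mem_insert, mem_singleton, Subtype.ext_iff]
      rw [h1, Finset.prod_pair (fun hh => hM.mix M.R _ M.R _ (Subtype.ext_iff.1 hh))]
      rw [hM.size _ (hX z hz).1, hM.size' _ (hX z hz).2, ← mul_inv, sq]
    rw [Finset.sum_congr rfl hw, Finset.sum_const, nsmul_eq_mul, ← div_eq_mul_inv,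
      div_le_iff₀ hq, mul_comm]
    exact hCard
  · intro ω hω
    rw [mem_filter] at hω
    obtain ⟨hω1, T, hTc, hhit, hfree⟩ := hω
    refine ⟨hω1, T.image (fun t => (⟨t.2.2, ((t.1, t.2.1),
      (M.cd hM (glue (K \ K1) w0 (ext K1 ω)) t.1.1,
      cdQ M hM Q g (glue (K \ K1) w0 (ext K1 ω)) t.1.2 t.2.1))⟩ :
      Σ _ : β, (((ι → ℕ) × (ι → ℕ)) × γ) × (ℕ × ℕ))), ?_, ?_, ?_, ?_⟩
    · intro z hz
      rw [mem_image] at hz
      obtain ⟨t, ht, rfl⟩ := hz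
      rw [hCand, mem_sigma]
      obtain ⟨h1, h2, h3, h4, h5⟩ := hhit t ht
      exact ⟨h4, mem_candQ hM hQ hQ0 g _ w0 (hg0 _) (hg0' _) h1 h2 h3 h5⟩
    · rw [card_image_of_injOn, hTc]
      intro t _ s _ hts
      simp only [Sigma.mk.injEq, heq_eq_eq, Prod.mk.injEq] at hts
      exact Prod.ext hts.2.1.1 (Prod.ext hts.2.1.2 hts.1)
    · intro z hz
      rw [mem_image] at hz
      obtain ⟨t, ht, rfl⟩ := hz
      exact ⟨rfl, rfl⟩
    · intro z hz z' hz' hzz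
      rw [mem_image] at hz hz'
      obtain ⟨t, ht, rfl⟩ := hz
      obtain ⟨s, hs, rfl⟩ := hz'
      have hts : t ≠ s := fun e => hzz (by rw [e])
      obtain ⟨⟨j, hj, hjne⟩, ⟨j', hj', hjne'⟩⟩ := hfree t ht s hs hts
      obtain ⟨t1, t2, _⟩ := hhit t ht
      obtain ⟨s1, s2, _⟩ := hhit s hs
      rw [Finset.disjoint_left]
      intro k hk hk'
      rw [hfk] at hk hk'
      simp only [mem_filter, mem_univ, true_and] at hk hk'
      rcases hk with hk | hk <;> rcases hk' with hk' | hk'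
      · exact hjne (hM.sep _ t1 _ s1 (hk.symm.trans hk') j (hM.PR hj))
      · exact hM.mix _ _ _ _ (hk.symm.trans hk')
      · exact hM.mix _ _ _ _ (hk'.symm.trans hk)
      · exact hjne' (hM.sep' _ t2 _ s2 (hk.symm.trans hk') j' (hM.PR' hj'))
  · have h0 : (0 : ℝ) ≤ ((OmK Mk K1).card : ℝ) := Nat.cast_nonneg _
    have h1 : (Cand.card : ℝ) * ρ ^ m ≤ (M.q : ℝ) ^ 2 * ρ ^ (m + 1) := by
      have h2 := mul_le_mul_of_nonneg_right hCard (pow_nonneg hρ m)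
      refine h2.trans (le_of_eq ?_)
      ring
    exact mul_le_mul_of_nonneg_left h1 h0

end Pool.Agent.Helper12.T5
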